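import Mathlib
import Pool.Agent.H266R3.LDef
import Pool.Agent.H621R3.LFNet
import Pool.Agent.H621R3.LFExist

/-!
# `Lip_0` of a net in a Banach space is isomorphic to its countable `ℓ_∞`-sum

For every real normed space `X` (no separability or completeness is used), every net `N` in `X` and
every base point, `Lip_0(N)` is linearly isomorphic to the space of bounded sequences in `Lip_0(N)`.

The predual statement `F(N) ≃ ℓ_1(F(N))` is `Pool.Agent.H621R3.LF.net_iso` (for `p = 1`); the present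
file carries out the duality `F(N)* = Lip_0(N)`, `ℓ_1(F(N))* = ℓ_∞(Lip_0(N))` at the level of
Lipschitz functions.
-/

set_option autoImplicit false

open scoped ENNReal
open Pool.Agent.H266R3.LF Pool.Agent.H621R3.LF

namespace Pool.Agent.Results.MP_1d1573_an.LipNetSum

/-- `N` is a net in the metric space `X`: it is uniformly separated and there is `δ` such that every
point of `X` is at distance less than `δ` from `N`. -/
def IsNetIn {X : Type} [MetricSpace X] (N : Set X) : Prop :=
  ∃ ε δ : ℝ, 0 < ε ∧ 0 < δ ∧ (∀ x ∈ N, ∀ y ∈ N, x ≠ y → ε ≤ dist x y) ∧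
    ∀ x : X, ∃ y ∈ N, dist x y < δ

/-- The `ℓ_∞`-sum of countably many copies of `Y`: all bounded sequences, with the supremum
norm. -/
abbrev LinftySum (Y : Type) [NormedAddCommGroup Y] : Type := lp (fun _ : ℕ => Y) ∞

theorem isNet_of {X : Type} [NormedAddCommGroup X] {N : Set X} (hN : IsNetIn N) :
    IsNet N := by
  obtain ⟨ε, δ, hε, hδ, h1, h2⟩ := hN
  refine ⟨min ε δ, δ, lt_min hε hδ, min_le_right _ _, fun x hx y hy hxy => ?_, fun v => ?_⟩
  · rw [← dist_eq_norm]
    exact (min_le_left _ _).trans (h1 x hx y hy hxy)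
  · obtain ⟨y, hy, h⟩ := h2 v
    refine ⟨y, hy, ?_⟩
    rw [← dist_eq_norm]
    exact h.le

instance : PBanach 1 ℝ where
  complete := inferInstance
  norm_smul c y := by simp

section dual

variable {M : Type} [MetricSpace M] {o : M} {F : Type} [NormedAddCommGroup F] [Module ℝ F]
  {δ : M → F}

theorem exists_lift (h : IsLipFree 1 o δ) (f : Lip0 M o) :
    ∃ T : F →L[ℝ] ℝ, (∀ x, T (δ x) = f.fn x) ∧ ∀ v, ‖T v‖ ≤ ‖f‖ * ‖v‖ := by
  obtain ⟨T, h1, h2⟩ := h.lift ℝ inferInstance f.fn ‖f‖ (norm_nonneg _) f.fn_base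
    (fun x y => by
      rw [Real.rpow_one, Real.norm_eq_abs]
      exact f.abs_sub_le x y)
  refine ⟨T, h1, fun v => ?_⟩
  have := h2 v
  rwa [Real.rpow_one] at this

/-- the extension of a Lipschitz function to a functional on the free space -/
noncomputable def ext (h : IsLipFree 1 o δ) (f : Lip0 M o) : F →L[ℝ] ℝ := (exists_lift h f).choose

theorem ext_delta (h : IsLipFree 1 o δ) (f : Lip0 M o) (x : M) : ext h f (δ x) = f.fn x :=
  (exists_lift h f).choose_spec.1 x

theorem ext_bound (h : IsLipFree 1 o δ) (f : Lip0 M o) (v : F) : ‖ext h f v‖ ≤ ‖f‖ * ‖v‖ :=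
  (exists_lift h f).choose_spec.2 v

theorem ext_unique (h : IsLipFree 1 o δ) (f : Lip0 M o) (T : F →L[ℝ] ℝ)
    (hT : ∀ x, T (δ x) = f.fn x) : ext h f = T :=
  h.unique ℝ inferInstance _ _ fun x => by rw [ext_delta, hT]

theorem ext_add (h : IsLipFree 1 o δ) (f g : Lip0 M o) (v : F) :
    ext h (f + g) v = ext h f v + ext h g v := by
  have : ext h (f + g) = ext h f + ext h g :=
    ext_unique h _ _ fun x => by
      rw [add_apply, ext_delta, ext_delta, Lip0.fn_add]
  rw [this, add_apply]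

theorem ext_smul (h : IsLipFree 1 o δ) (c : ℝ) (f : Lip0 M o) (v : F) :
    ext h (c • f) v = c * ext h f v := by
  have : ext h (c • f) = c • ext h f :=
    ext_unique h _ _ fun x => by
      rw [smul_apply, ext_delta, Lip0.fn_smul, smul_eq_mul]
  rw [this, smul_apply, smul_eq_mul]

theorem delta_dist (h : IsLipFree 1 o δ) (x y : M) : ‖δ x - δ y‖ = dist x y := by
  rw [h.isometric, Real.rpow_one]

/-- restriction of a functional to the metric space -/
noncomputable def res (h : IsLipFree 1 o δ) (T : F →L[ℝ] ℝ) (C : ℝ) (hC : 0 ≤ C)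
    (hT : ∀ v, ‖T v‖ ≤ C * ‖v‖) : Lip0 M o :=
  Lip0.mk (fun x => T (δ x)) (by rw [h.map_base, map_zero]) C hC (fun x y => by
    rw [← map_sub, ← Real.norm_eq_abs, ← delta_dist h]
    exact hT _)

theorem res_fn (h : IsLipFree 1 o δ) (T : F →L[ℝ] ℝ) (C : ℝ) (hC : 0 ≤ C)
    (hT : ∀ v, ‖T v‖ ≤ C * ‖v‖) (x : M) : (res h T C hC hT).fn x = T (δ x) := rfl

theorem res_norm (h : IsLipFree 1 o δ) (T : F →L[ℝ] ℝ) (C : ℝ) (hC : 0 ≤ C)
    (hT : ∀ v, ‖T v‖ ≤ C * ‖v‖) : ‖res h T C hC hT‖ ≤ C :=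
  Lip0.norm_le' _ hC (fun x y => by
    rw [res_fn, res_fn, ← map_sub, ← Real.norm_eq_abs, ← delta_dist h]
    exact hT _)

theorem ext_res (h : IsLipFree 1 o δ) (T : F →L[ℝ] ℝ) (C : ℝ) (hC : 0 ≤ C)
    (hT : ∀ v, ‖T v‖ ≤ C * ‖v‖) : ext h (res h T C hC hT) = T :=
  ext_unique h _ _ fun _ => rfl

set_option linter.unusedSectionVars false

variable [PBanach 1 F]

/-- the functional on `ℓ_1(F)` given by a bounded sequence of Lipschitz functions -/
noncomputable def big (h : IsLipFree 1 o δ) (g : LinftySum (Lip0 M o)) : EllP 1 F →L[ℝ] ℝ :=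
  sumMap (fun n => ext h (g n)) ‖g‖ (fun n v => (ext_bound h (g n) v).trans
    (mul_le_mul_of_nonneg_right (lp.norm_apply_le_norm (by simp) g n) (norm_nonneg v)))

theorem big_apply (h : IsLipFree 1 o δ) (g : LinftySum (Lip0 M o)) (v : EllP 1 F) :
    big h g v = ∑' n, ext h (g n) (v n) := rfl

theorem big_summable (h : IsLipFree 1 o δ) (g : LinftySum (Lip0 M o)) (v : EllP 1 F) :
    Summable fun n => ext h (g n) (v n) := by
  refine Summable.of_norm_bounded (v.summable.mul_left ‖g‖) fun n => ?_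
  exact (ext_bound h (g n) _).trans
    (mul_le_mul_of_nonneg_right (lp.norm_apply_le_norm (by simp) g n) (norm_nonneg _))

theorem big_bound (h : IsLipFree 1 o δ) (g : LinftySum (Lip0 M o)) (v : EllP 1 F) :
    ‖big h g v‖ ≤ ‖g‖ * ‖v‖ := by
  rw [big_apply, EllP.norm_eq, ← tsum_mul_left]
  have hs : Summable fun n => ‖g‖ * ‖v n‖ := v.summable.mul_left ‖g‖
  have hb : ∀ n, ‖ext h (g n) (v n)‖ ≤ ‖g‖ * ‖v n‖ := fun n =>
    (ext_bound h (g n) _).trans
      (mul_le_mul_of_nonneg_right (lp.norm_apply_le_norm (by simp) g n) (norm_nonneg _))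
  exact tsum_of_norm_bounded hs.hasSum hb

theorem inj_apply' (n m : ℕ) (v : F) : (inj n v : EllP 1 F) m = if m = n then v else 0 := by
  unfold inj
  rw [mkSeq_apply]
  split_ifs <;> simp

theorem big_inj (h : IsLipFree 1 o δ) (g : LinftySum (Lip0 M o)) (n : ℕ) (v : F) :
    big h g (inj n v) = ext h (g n) v := by
  rw [big_apply, tsum_eq_single n]
  · rw [inj_apply', if_pos rfl]
  · intro m hm
    rw [inj_apply', if_neg hm, map_zero]

theorem norm_inj (n : ℕ) (v : F) : ‖(inj n v : EllP 1 F)‖ = ‖v‖ := by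
  rw [EllP.norm_eq, tsum_eq_single n]
  · rw [inj_apply', if_pos rfl]
  · intro m hm
    rw [inj_apply', if_neg hm, norm_zero]

end dual

/-- the duality step -/
theorem dual_iso {M : Type} [MetricSpace M] {o : M} {F : Type} [NormedAddCommGroup F] [Module ℝ F]
    [PBanach 1 F] {δ : M → F} (h : IsLipFree 1 o δ) (e : F ≃L[ℝ] EllP 1 F) :
    Nonempty (Lip0 M o ≃L[ℝ] LinftySum (Lip0 M o)) := by
  obtain ⟨A, hA0, hA⟩ := exists_bound (p := 1) one_pos (e : F →L[ℝ] EllP 1 F)
  obtain ⟨B, hB0, hB⟩ := exists_bound (p := 1) one_pos (e.symm : EllP 1 F →L[ℝ] F)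
  -- the map from `Lip_0` to sequences
  have bd : ∀ (f : Lip0 M o) (n : ℕ) (v : F),
      ‖((ext h f).comp ((e.symm : EllP 1 F →L[ℝ] F).comp (inj n))) v‖ ≤ (‖f‖ * B) * ‖v‖ := by
    intro f n v
    refine (ext_bound h f _).trans ?_
    rw [mul_assoc]
    refine mul_le_mul_of_nonneg_left ?_ (norm_nonneg _)
    have := hB (inj n v)
    rwa [norm_inj] at this
  let U : Lip0 M o → ℕ → Lip0 M o := fun f n =>
    res h ((ext h f).comp ((e.symm : EllP 1 F →L[ℝ] F).comp (inj n))) (‖f‖ * B)
      (mul_nonneg (norm_nonneg _) hB0) (bd f n)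
  have hU : ∀ f n x, (U f n).fn x = ext h f (e.symm (inj n (δ x))) := fun f n x => rfl
  have hUn : ∀ f n, ‖U f n‖ ≤ ‖f‖ * B := fun f n => res_norm _ _ _ _ _
  have hUe : ∀ f n v, ext h (U f n) v = ext h f (e.symm (inj n v)) := by
    intro f n v
    have := ext_res h _ _ (mul_nonneg (norm_nonneg f) hB0) (bd f n)
    show ext h (U f n) v = _
    rw [show ext h (U f n) = _ from this]
    rfl
  have hmem : ∀ f, Memℓp (U f) ∞ := fun f => memℓp_infty ⟨‖f‖ * B, by
    rintro _ ⟨n, rfl⟩
    exact hUn f n⟩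
  -- the map from sequences to `Lip_0`
  have bd2 : ∀ (g : LinftySum (Lip0 M o)) (v : F),
      ‖((big h g).comp (e : F →L[ℝ] EllP 1 F)) v‖ ≤ (‖g‖ * A) * ‖v‖ := by
    intro g v
    refine (big_bound h g _).trans ?_
    rw [mul_assoc]
    exact mul_le_mul_of_nonneg_left (hA v) (norm_nonneg _)
  let V : LinftySum (Lip0 M o) → Lip0 M o := fun g =>
    res h ((big h g).comp (e : F →L[ℝ] EllP 1 F)) (‖g‖ * A)
      (mul_nonneg (norm_nonneg _) hA0) (bd2 g)
  have hV : ∀ g x, (V g).fn x = big h g (e (δ x)) := fun g x => rfl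
  have hVn : ∀ g, ‖V g‖ ≤ ‖g‖ * A := fun g => res_norm _ _ _ _ _
  have hVe : ∀ g v, ext h (V g) v = big h g (e v) := by
    intro g v
    have := ext_res h _ _ (mul_nonneg (norm_nonneg g) hA0) (bd2 g)
    rw [show ext h (V g) = _ from this]
    rfl
  have left : ∀ f, V ⟨U f, hmem f⟩ = f := by
    intro f
    apply Lip0.ext
    intro x
    rw [hV]
    have key : big h (⟨U f, hmem f⟩ : LinftySum (Lip0 M o))
        = (ext h f).comp (e.symm : EllP 1 F →L[ℝ] F) := by
      ext w
      rw [big_apply]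
      have h1 : HasSum (fun n => inj n (w n)) w := hasSum_inj w
      have h2 := h1.mapL ((ext h f).comp (e.symm : EllP 1 F →L[ℝ] F))
      refine HasSum.tsum_eq ?_
      refine h2.congr_fun ?_
      intro n
      exact hUe f n (w n)
    rw [key]
    show ext h f (e.symm (e (δ x))) = f.fn x
    rw [e.symm_apply_apply, ext_delta]
  have right : ∀ g : LinftySum (Lip0 M o), (⟨U (V g), hmem (V g)⟩ : LinftySum (Lip0 M o)) = g := by
    intro g
    apply lp.ext
    funext n
    apply Lip0.ext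
    intro x
    show (U (V g) n).fn x = _
    rw [hU, hVe, e.apply_symm_apply, big_inj, ext_delta]
  let L : Lip0 M o ≃ₗ[ℝ] LinftySum (Lip0 M o) :=
    { toFun := fun f => ⟨U f, hmem f⟩
      map_add' := fun f g => by
        apply lp.ext
        funext n
        apply Lip0.ext
        intro x
        show (U (f + g) n).fn x = (U f n).fn x + (U g n).fn x
        rw [hU, hU, hU, ext_add]
      map_smul' := fun c f => by
        apply lp.ext
        funext n
        apply Lip0.ext
        intro x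
        show (U (c • f) n).fn x = c * (U f n).fn x
        rw [hU, hU, ext_smul]
      invFun := V
      left_inv := left
      right_inv := right }
  exact ⟨L.toContinuousLinearEquivOfBounds B A
    (fun f => by
      refine lp.norm_le_of_forall_le (mul_nonneg hB0 (norm_nonneg _)) fun n => ?_
      rw [mul_comm]
      exact hUn f n)
    (fun g => by
      rw [mul_comm]
      exact hVn g)⟩

/-- **`Lip_0(N) ≃ ⨁_{ℓ_∞} Lip_0(N)` for every net `N` in every real normed space.** -/
theorem result (X : Type) [NormedAddCommGroup X] [NormedSpace ℝ X] (N : Set X) (hN : IsNetIn N)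
    (o : N) : Nonempty (Lip0 N o ≃L[ℝ] LinftySum (Lip0 N o)) := by
  obtain ⟨F, i1, i2, i3, δ, h⟩ := exists_lipFree (p := 1) one_pos le_rfl o
  obtain ⟨e⟩ := net_iso (isNet_of hN) o one_pos δ h
  exact dual_iso h e

end Pool.Agent.Results.MP_1d1573_an.LipNetSum
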